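import Pool.Agent.Helper93.TLH.StB
import Pool.Agent.Helper78.W3.StC

/-!
# Project TH (level `2 * 3^n`, `W_2 = +1`): upper bound for new symbols

The shape of `Helper76/TH/StC.lean` and `Helper76/TH7/StC7.lean` (project TH, `p = 5`, `p = 7`, all modules closed: `Pool/Agent/Helper*/TH/M_*H.lean`, `Pool/Agent/Helper*/TH7/M_*H7.lean`, plane functions of W5 and W7: `Pool/Agent/Helper*/W5/M_*.lean`, `Pool/Agent/Helper*/S7/M_*.lean`), here with `p = 3`; it is simpler: two plane functions for even and for odd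
exponents. The group: matrices `(a 3^μ b; 3c d)` of type `HTy` (determinant one and `c` even, or determinant two and `a, c, d` even). RULE FOR REFLECTIONS. `val π = G(gu) - G(gv)` for the path `π` from `v` to `u`, `F_π(p)` the value at the coordinates `p` of `g`. `b = (0 1; 2 0)` (even exponents, `μ = 1`), `b = (0 1; 6 0)`
(odd exponents, `μ = 0`): if `g` has coordinates `p = (x, y)`, then `b⁻¹ g b` has coordinates `swH p = (y/2, 2x)`, `* g *` has `ng p`, `g M` has `trp μ a b c d p` for `M = (a 3^μ b; 3c d)` of type `HTy`. `G∘* ≈ G`, `G∘b ≈ -G`. So for `ρ = b M` (up to a scalar): the value of `G` at the path `g ρ π` is `-F_π(trp M (swH p))`;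
for `ρ = * M`: `F_π(trp M (ng p))`; for `ρ = b * M`: `-F_π(trp M (ng (swH p)))`. The relations of TYPH3 and the dimensions `2`, `12`, `90` (odd, `m = 1, 2, 3`), `3`, `27`, `243` (even, `m = 1, 2, 3`) were checked by machine.
-/

set_option autoImplicit false

namespace Pool.Agent.Helper76.TH3

open Pool.Agent.Helper14.CV (Homog EqC act StFar)
open Pool.Agent.Helper93.TLH

/-- The matrix `(a, 3^μ b; 3 c, d)` is of type `HTy` and has plane coordinates `(x, y)`. -/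
def PlH (μ : ℕ) {q q' : ℕ} (a b c d : ℤ) (x : ZMod q) (y : ZMod q') : Prop :=
  HTy a (3 ^ μ * b) (3 * c) d ∧ (b : ZMod q) = x * a ∧ (c : ZMod q') = y * d

/-- The (even) entry `Y` of the standard matrix `(1, 3^μ X; 3 Y, 1 + 3^(μ+1) X Y)`, `X = x.val`. -/
noncomputable def rYH (μ : ℕ) {q q' : ℕ} (x : ZMod q) (y : ZMod q') : ℤ :=
  2 * ((y * (2 * (1 - 3 ^ (μ + 1) * ((x.val : ℕ) : ZMod q') * y))⁻¹).val : ℤ)

/-- The value of the symbol of `G` on the path from `g v` to `g u`, `g` the standard matrix with plane coordinates `(x, y)`. -/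
noncomputable def edgeH {R : Type} [AddCommGroup R] (μ : ℕ) {q q' : ℕ} (u1 u2 v1 v2 : ℤ)
    (G : ℤ → ℤ → R) (x : ZMod q) (y : ZMod q') : R :=
  G (u1 + 3 ^ μ * (x.val : ℤ) * u2) (3 * rYH μ x y * u1 + (1 + 3 ^ (μ + 1) * (x.val : ℤ) * rYH μ x y) * u2)
  - G (v1 + 3 ^ μ * (x.val : ℤ) * v2) (3 * rYH μ x y * v1 + (1 + 3 ^ (μ + 1) * (x.val : ℤ) * rYH μ x y) * v2)

/-- PLAH3. The standard matrix is of type `HTy` and has the right coordinates. Model: `Pool/Agent/Helper45/TH7/M_PLAH7.lean`. -/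
def HPlA3 : Prop := ∀ (μ r s : ℕ) (x : ZMod (3 ^ r)) (y : ZMod (3 ^ s)),
  PlH μ 1 (x.val : ℤ) (rYH μ x y) (1 + 3 ^ (μ + 1) * (x.val : ℤ) * rYH μ x y) x y

/-- The content of EDGH3. -/
def HEdg3 : Prop := ∀ (R : Type) (_ : AddCommGroup R) (μ r s : ℕ) (G : ℤ → ℤ → R),
  SymH 3 (r + μ) (s + 1) G → ∀ (u1 u2 v1 v2 : ℤ), (u1 ≠ 0 ∨ u2 ≠ 0) → (v1 ≠ 0 ∨ v2 ≠ 0) →
  ∀ (x : ZMod (3 ^ r)) (y : ZMod (3 ^ s)) (a b c d : ℤ), PlH μ a b c d x y →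
  edgeH μ u1 u2 v1 v2 G x y = G (a * u1 + 3 ^ μ * b * u2) (3 * c * u1 + d * u2) -
    G (a * v1 + 3 ^ μ * b * v2) (3 * c * v1 + d * v2)

/-- EDGH3. Model: `Pool/Agent/Helper60/TH7/M_EDGH7.lean`. -/
def StHEdg3 : Prop := HPlA3 → HEdg3

/-- Balanced new symbols, even exponent `n = 2k`. -/
def BalEH (k : ℕ) (G : ℤ → ℤ → ℂ) : Prop :=
  SymH 3 k k G ∧ EqC (∑ i ∈ Finset.range 3, act 1 (i * 3 ^ (k - 1)) 0 1 G) 0 ∧
    EqC (∑ i ∈ Finset.range 3, act 1 0 (2 * i * 3 ^ (k - 1)) 1 G) 0 ∧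
    EqC (act 0 (-1) 2 0 G) (-G) ∧ EqC (act (-1) 0 0 1 G) G

/-- Balanced new symbols, odd exponent `n = 2k+1`. -/
def BalOH (k : ℕ) (G : ℤ → ℤ → ℂ) : Prop :=
  SymH 3 k (k + 1) G ∧ EqC (∑ i ∈ Finset.range 3, act 1 (i * 3 ^ (k - 1)) 0 1 G) 0 ∧
    EqC (∑ i ∈ Finset.range 3, act 1 0 (2 * i * 3 ^ k) 1 G) 0 ∧
    EqC (act 0 (-1) 6 0 G) (-G) ∧ EqC (act (-1) 0 0 1 G) G

/-- BALH3. Model: `Pool/Agent/Helper66/TH7/M_BALH7.lean`. -/
def HBal3 : Prop := ∀ (k : ℕ) (G : ℤ → ℤ → ℂ), 1 ≤ k →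
  (NewSymH 3 (2 * k) G → BalEH k (act 1 0 0 (3 ^ k) G)) ∧
  (NewSymH 3 (2 * k + 1) G → BalOH k (act 1 0 0 (3 ^ k) G)) ∧
  (Homog G → EqC (act 1 0 0 (3 ^ k) G) 0 → EqC G 0)

/-! ### Functions on the plane `(ZMod (3^m))²` -/

/-- The plane. -/
abbrev Pt (m : ℕ) : Type := ZMod (3 ^ m) × ZMod (3 ^ m)

/-- Right translation by `(a 3^μ b; 3c d)`, on points: `(x, y) ↦ ((b + d x)/(a + 3^(μ+1) c x), (c + a y)/(d + 3^(μ+1) b y))`. -/
def trp (μ : ℕ) (a b c d : ℤ) {m : ℕ} (p : Pt m) : Pt m :=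
  (((b : ZMod (3 ^ m)) + d * p.1) * ((a : ZMod (3 ^ m)) + 3 ^ (μ + 1) * c * p.1)⁻¹,
    ((c : ZMod (3 ^ m)) + a * p.2) * ((d : ZMod (3 ^ m)) + 3 ^ (μ + 1) * b * p.2)⁻¹)

/-- `(x, y) ↦ (-x, -y)`. -/
def ng {m : ℕ} (p : Pt m) : Pt m := (-p.1, -p.2)

/-- The vertical line: `(x, y) ↦ (-1-x, -y/(1+3^(μ+1) y))`. -/
def dR (μ : ℕ) {m : ℕ} (p : Pt m) : Pt m := trp μ 1 (-1) 0 1 (ng p)

/-- `(x, y) ↦ (y/2, 2x)`. -/
def swH {m : ℕ} (p : Pt m) : Pt m := (p.2 * (2 : ZMod (3 ^ m))⁻¹, 2 * p.1)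

/-- Odd exponent (`μ = 0`): the circle around `1/2`, matrix `(3 -1; 6 -3)`, `b (2 -1; 6 -2) = 2 (3 -1; 6 -3)`. -/
def cOH {m : ℕ} (p : Pt m) : Pt m := trp 0 2 (-1) 2 (-2) (swH p)

/-- Even exponent (`μ = 1`): the circle over `[1/2, 1]`, matrix `(3 -2; 4 -3)`, `b (4 -3; 6 -4) = 2 (3 -2; 4 -3)`. -/
def cBH {m : ℕ} (p : Pt m) : Pt m := trp 1 4 (-1) 2 (-4) (swH p)

/-- Even exponent: the circle over `[1, 2]`, matrix `(3 -4; 2 -3)`, `b (2 -3; 6 -8) = 2 (3 -4; 2 -3)`. -/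
def cCH {m : ℕ} (p : Pt m) : Pt m := trp 1 2 (-1) 2 (-8) (swH p)

/-- The map `r` is an involution. -/
def Iv {m : ℕ} (r : Pt m → Pt m) : Prop := ∀ p, r (r p) = p

/-- The maps `r`, `r'` are commuting involutions. -/
def Kl {m : ℕ} (r r' : Pt m → Pt m) : Prop :=
  (∀ p, r (r p) = p) ∧ (∀ p, r' (r' p) = p) ∧ ∀ p, r (r' p) = r' (r p)

/-- `φ` has derivative `s` modulo `3`. -/
def Dv {m : ℕ} (s : ℤ) (φ : ZMod (3 ^ m) → ZMod (3 ^ m)) : Prop :=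
  ∀ (i : ℕ) (x x' : ZMod (3 ^ m)), (3 : ZMod (3 ^ m)) ^ i ∣ x - x' →
    (3 : ZMod (3 ^ m)) ^ (i + 1) ∣ φ x - φ x' - s * (x - x')

/-- Type `0`: `(x, y) ↦ (φ x, φ' y)` with derivatives `s`, `s'` different from `0` and `1` modulo `3`; type `1`: `(x, y) ↦ (ψ y, ψ' x)` with derivatives prime to `3`. -/
def Ty {m : ℕ} (n : ℕ) (r : Pt m → Pt m) : Prop :=
  (n = 0 ∧ ∃ (s s' : ℤ) (φ φ' : ZMod (3 ^ m) → ZMod (3 ^ m)), ¬ (3 : ℤ) ∣ s ∧ ¬ (3 : ℤ) ∣ s - 1 ∧ ¬ (3 : ℤ) ∣ s' ∧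
    ¬ (3 : ℤ) ∣ s' - 1 ∧ Dv s φ ∧ Dv s' φ' ∧ ∀ p, r p = (φ p.1, φ' p.2)) ∨
  (n = 1 ∧ ∃ (s s' : ℤ) (ψ ψ' : ZMod (3 ^ m) → ZMod (3 ^ m)), ¬ (3 : ℤ) ∣ s ∧ ¬ (3 : ℤ) ∣ s' ∧ Dv s ψ ∧ Dv s' ψ' ∧
    ∀ p, r p = (ψ p.2, ψ' p.1))

/-- TYPH3. The maps above and their types. Proof as TYPH7 (`Pool/Agent/Helper55/TH7/M_TYPH7.lean`): `trp μ M' (trp μ M p) = trp μ (M M') p`, `trp` does not change under scalars prime to `3`, `swH (trp μ a b c d p) = trp μ d (c/2) (2b) a (swH p)` (`c` even), `ng (trp μ a b c d p) = trp μ a (-b) (-c) d (ng p)`, `ng (swH p) = swH (ng p)`;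
so all relations are identities of matrices up to a scalar (`(3 -1; 6 -3)`, `(3 -2; 4 -3)`, `(3 -4; 2 -3)`, `(2 -1; 6 -2)`, `(4 -3; 6 -4)` have trace zero). Derivatives: `det/a²`, `det/d²` modulo `3` (and `1/2`, `2` for `swH`); the type `0` maps here have both derivatives `≡ -1`. -/
def HTyp3 : Prop := ∀ m : ℕ,
  (Kl (ng : Pt m → Pt m) swH ∧ Ty 0 (ng : Pt m → Pt m) ∧ Ty 1 (swH : Pt m → Pt m) ∧ Ty 1 (fun p : Pt m => ng (swH p))) ∧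
  (Kl (dR 0 : Pt m → Pt m) cOH ∧ Ty 0 (dR 0 : Pt m → Pt m) ∧ Ty 1 (cOH : Pt m → Pt m) ∧ Ty 1 (fun p : Pt m => dR 0 (cOH p))) ∧
  (Kl (dR 1 : Pt m → Pt m) cCH ∧ Ty 0 (dR 1 : Pt m → Pt m) ∧ Ty 1 (cCH : Pt m → Pt m) ∧ Ty 1 (fun p : Pt m => dR 1 (cCH p))) ∧
  (Kl (swH : Pt m → Pt m) cOH ∧ Ty 0 (fun p : Pt m => swH (cOH p))) ∧
  (Kl (swH : Pt m → Pt m) cBH ∧ Ty 1 (cBH : Pt m → Pt m) ∧ Ty 0 (fun p : Pt m => swH (cBH p))) ∧
  (∀ p : Pt m, swH (cOH p) = trp 0 (-2) 1 (-2) 2 p) ∧ (∀ p : Pt m, swH (cBH p) = trp 1 (-4) 1 (-2) 4 p)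

/-- Functions on the plane with vanishing sums over the translates by multiples of `3^(m-1)`, in both variables. -/
def anti3 (m : ℕ) : Submodule ℂ (Pt m → ℂ) where
  carrier := {F | ∀ p : Pt m, ∑ i ∈ Finset.range 3, F (p.1 + i * 3 ^ (m - 1), p.2) = 0 ∧
    ∑ i ∈ Finset.range 3, F (p.1, p.2 + i * 3 ^ (m - 1)) = 0}
  add_mem' := by
    intro F F' h h' p
    simp only [Pi.add_apply, Finset.sum_add_distrib, (h p).1, (h p).2, (h' p).1, (h' p).2, add_zero,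
      and_self]
  zero_mem' := by intro p; simp
  smul_mem' := by
    intro c F h p
    simp only [Pi.smul_apply, ← Finset.smul_sum, (h p).1, (h p).2, smul_zero, and_self]

/-- Functions of `anti3 m` with `F∘r = e F`, `F∘r' = e' F`. -/
def inv3 {m : ℕ} (r r' : Pt m → Pt m) (e e' : ℂ) : Submodule ℂ (Pt m → ℂ) where
  carrier := {F | F ∈ anti3 m ∧ ∀ p : Pt m, F (r p) = e * F p ∧ F (r' p) = e' * F p}
  add_mem' := by
    rintro F F' ⟨h0, h⟩ ⟨h0', h'⟩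
    refine ⟨(anti3 m).add_mem h0 h0', fun p => ?_⟩
    simp only [Pi.add_apply, (h p).1, (h p).2, (h' p).1, (h' p).2, mul_add, and_self]
  zero_mem' := ⟨(anti3 m).zero_mem, by intro p; simp⟩
  smul_mem' := by
    rintro c F ⟨h0, h⟩
    refine ⟨(anti3 m).smul_mem c h0, fun p => ?_⟩
    simp only [Pi.smul_apply, smul_eq_mul, (h p).1, (h p).2]
    constructor <;> ring

/-- DIMKH3. Dimensions by fixed points (`m ≥ 1`). The first and the third part of `S7DimK` with `3` in the place of `7` (model `Pool/Agent/Helper71/S7/M_DimK.lean`; TRQ `Pool.Agent.Helper78.W3.S3Trq`, proved: `Pool.Agent.Helper10.W3.hTrq`): `t = 3^(m-1)`, `w 0 = 2/3`, `w 1 = w 2 = -1/3`. Fixed points of `p ↦ r (p + (i t, j t))`: the identity: `9^m` for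
`i = j = 0`, else none, total `(4/9) 9^m = 4·9^(m-1)`; type `0`: exactly one, total weight `(∑ w)² = 0`; type `1`, an involution: `3^m` if `j + s' i ≡ 0` modulo `3`, else none, total `3^m ∑_i w_i w_{-s' i} = (2/3) 3^m`. -/
def HDimK3 : Prop := ∀ m : ℕ, 1 ≤ m → Module.finrank ℂ (anti3 m) = 4 * 9 ^ (m - 1) ∧
  (∀ (r r' : Pt m → Pt m) (n n' n'' : ℕ) (e e' : ℤ), Kl r r' → Ty n r → Ty n' r' →
    Ty n'' (fun p => r (r' p)) → (e = 1 ∨ e = -1) → (e' = 1 ∨ e' = -1) →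
    4 * (Module.finrank ℂ (inv3 r r' (e : ℂ) (e' : ℂ)) : ℤ) =
      4 * 9 ^ (m - 1) + (e * n + e' * n' + e * e' * n'') * (2 * 3 ^ (m - 1)))

/-- SPLH3. Every function of `anti3 m` (`m ≥ 1`) is the sum of one invariant under `ng` and one invariant under `dR μ`. Proof: write `a F = F∘ng`, `d F = F∘dR μ`, `T F = d (a F)`, so
`T F (x, y) = F (x + 1, y/(1 + 3^(μ+1) y))` and `T^h F (x, y) = F (x + 3^(m-1), y)` for `h = 3^(m-1)`. All preserve `anti3 m`. `1 - T` is injective on `anti3 m`: `T g = g` implies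
`g(x + i 3^(m-1), y) = g(x, y)`, so `3 g = 0`; so it is bijective (finite dimension). Let `(1 - T) f = (1 - d) φ`. From `T a = d`: `(1 - T) a f = a f - d f`; and `f = d a f + (1 - d) φ` gives `d f = a f - (1 - d) φ`, so
`(1 - T)(a f - f) = 0`, `a f = f`; `l = φ - f` satisfies `d l = d φ - a f + (1 - d) φ = l`. Model `Pool/Agent/Helper36/S7/M_Split.lean` (`7`), `Pool/Agent/Helper99/W5/M_Split.lean` (`5`). -/
def HSplit3 : Prop := ∀ (μ m : ℕ), 1 ≤ m → ∀ φ ∈ anti3 m, ∃ f ∈ anti3 m, ∃ l ∈ anti3 m,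
  (∀ p, φ p = f p + l p) ∧ (∀ p, f (ng p) = f p) ∧ (∀ p, l (dR μ p) = l p)

/-- The target for odd exponents: `(f, l)`, the values on the paths `0 → ∞`, `1/2 → ∞`. -/
def subOH (m : ℕ) : Submodule ℂ ((Pt m → ℂ) × (Pt m → ℂ)) where
  carrier := {F | F.1 ∈ inv3 (m := m) ng swH 1 1 ∧ F.2 ∈ inv3 (m := m) (dR 0) cOH 1 1 ∧
    ∀ p : Pt m, (F.1 p - F.2 p) + (F.1 (swH (cOH p)) - F.2 (swH (cOH p))) = 0}
  add_mem' := by
    rintro F F' ⟨h0, h1, h⟩ ⟨h0', h1', h'⟩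
    refine ⟨Submodule.add_mem _ h0 h0', Submodule.add_mem _ h1 h1', fun p => ?_⟩
    have a1 := h p
    have b1 := h' p
    simp only [Prod.fst_add, Prod.snd_add, Pi.add_apply]
    linear_combination a1 + b1
  zero_mem' := ⟨Submodule.zero_mem _, Submodule.zero_mem _, by intro p; simp⟩
  smul_mem' := by
    rintro c F ⟨h0, h1, h⟩
    refine ⟨Submodule.smul_mem _ c h0, Submodule.smul_mem _ c h1, fun p => ?_⟩
    have a1 := h p
    simp only [Prod.smul_fst, Prod.smul_snd, Pi.smul_apply, smul_eq_mul]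
    linear_combination c * a1

/-- The target for even exponents: `(f, F)`, the values on the paths `0 → ∞`, `1 → ∞`. -/
def subEH (m : ℕ) : Submodule ℂ ((Pt m → ℂ) × (Pt m → ℂ)) where
  carrier := {F | F.1 ∈ inv3 (m := m) ng swH 1 1 ∧ F.2 ∈ anti3 m ∧
    (∀ p : Pt m, (F.2 p + F.2 (swH p) - F.1 p) +
      (F.2 (swH (cBH p)) + F.2 (swH (swH (cBH p))) - F.1 (swH (cBH p))) = 0) ∧
    (∀ p : Pt m, F.2 p + F.2 (cCH p) - F.2 (dR 1 p) - F.2 (dR 1 (cCH p)) = 0)}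
  add_mem' := by
    rintro F F' ⟨h0, h1, h4, h5⟩ ⟨h0', h1', h4', h5'⟩
    refine ⟨Submodule.add_mem _ h0 h0', (anti3 m).add_mem h1 h1', fun p => ?_, fun p => ?_⟩
    · have a := h4 p
      have b := h4' p
      simp only [Prod.fst_add, Prod.snd_add, Pi.add_apply]
      linear_combination a + b
    · have a := h5 p
      have b := h5' p
      simp only [Prod.snd_add, Pi.add_apply]
      linear_combination a + b
  zero_mem' := ⟨Submodule.zero_mem _, (anti3 m).zero_mem, by intro p; simp, by intro p; simp⟩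
  smul_mem' := by
    rintro c F ⟨h0, h1, h4, h5⟩
    refine ⟨Submodule.smul_mem _ c h0, (anti3 m).smul_mem c h1, fun p => ?_, fun p => ?_⟩
    · have a := h4 p
      simp only [Prod.smul_fst, Prod.smul_snd, Pi.smul_apply, smul_eq_mul]
      linear_combination c * a
    · have a := h5 p
      simp only [Prod.smul_snd, Pi.smul_apply, smul_eq_mul]
      linear_combination c * a

/-- The content of DIMOH3. -/
def HDimO3 : Prop := ∀ m : ℕ, 1 ≤ m →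
  Module.finrank ℂ (subOH m) = 9 ^ (m - 1) + 3 ^ (m - 1)

/-- DIMOH3 (from TYPH3, DIMKH3, SPLH3). `a = 9^(m-1)`, `b = 3^(m-1)`. `Vf = inv3 ng swH 1 1`, `Vl = inv3 (dR 0) cOH 1 1` have dimension `a + b` (types `0, 1, 1`), `V4 = inv3 swH cOH 1 1` has `a + b` (types `1, 1, 0`). The map `(f, l) ↦ N(f - l)`, `N F = F + F∘R`, `R = swH∘cOH`, from `Vf × Vl` to `V4` (`N f = f + f∘cOH` as `f∘swH = f`; `N l = l + l∘swH` as
`l∘cOH = l` and `swH`, `cOH` commute; so `N f = (1/2) ∑_κ f∘κ`, `N l = (1/2) ∑_κ l∘κ`, `κ` in the group `{1, swH, cOH, swH cOH}`) is onto: for `φ` in `V4` let `f0 + l1 = φ` (SPLH3, `μ = 0`), `l0 = -l1`, `f = (f0 + f0∘swH)/2`, `l = (l0 + l0∘cOH)/2` (`ng` commutes with `swH`, `dR 0` with `cOH`); the image is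
`(1/2) ∑_κ (f0 - l0)∘κ = (1/2) 4 φ = 2 φ`. Its kernel is `subOH m`: `(a+b) + (a+b) - (a+b)`. Model: `Pool/Agent/Helper75/TH/M_DIMOH.lean`. -/
def StHDimO3 : Prop := HTyp3 → HDimK3 → HSplit3 → HDimO3

/-- The content of DIMEH3. -/
def HDimE3 : Prop := ∀ m : ℕ, 1 ≤ m → Module.finrank ℂ (subEH m) = 3 * 9 ^ (m - 1)

/-- DIMEH3 (from TYPH3, DIMKH3, SPLH3). `V = anti3 m` has dimension `4a`, `Vf = inv3 ng swH 1 1` has `a + b` (types `0, 1, 1`), `V4 = inv3 swH cBH 1 1` has `a + b` (types `1, 1, 0`), `V3 = inv3 (dR 1) cCH (-1) 1` has `a` (types `0, 1, 1`: `0 + 1 - 1`). `P3 F = F + F∘cCH - F∘dR 1 - F∘(dR 1)∘cCH`, `N F = F + F∘R`, `R = swH∘cBH`. The map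
`(f, F) ↦ (N(F + F∘swH - f), P3 F)` from `Vf × V` to `V4 × V3` (for `F∘swH = F` the function `N F = F + F∘cBH` is invariant under `swH` and `cBH`) is onto: given `(φ, ψ)` let (SPLH3, `μ = 1`) `ψ/4 = f0 + l0`, `φ/4 = f1 + l1`, `f0, f1` invariant under `ng`, `l0, l1` under `dR 1`; take `F = f0 + l1`, `f = (f0 + f0∘swH) - (f1 + f1∘swH)`. Then
`F + F∘swH - f = (l1 + f1) + (l1 + f1)∘swH = φ/2` and `N(φ/2) = φ`; `P3 l1 = P3 l0 = 0`, so `P3 F = P3 f0 = P3 (ψ/4) = ψ`. The kernel is `subEH m`: `(a+b) + 4a - (a+b) - a = 3a`. Model: `Pool/Agent/Helper3/TH/M_DIMEH.lean`. -/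
def StHDimE3 : Prop := HTyp3 → HDimK3 → HSplit3 → HDimE3

/-! ### Representatives -/

/-- Twelve representatives with bottom row `≡ (0, 1)` modulo `2` (of the classes of `SL₂(ℤ)` modulo `(* 3*; 6* *)`). -/
def LH01 : List (ℤ × ℤ × ℤ × ℤ) :=
  [(1, -1, 2, -1), (-1, 1, 2, -3), (1, 1, 2, 3), (-1, -1, 2, 1), (-1, 1, 0, -1), (-3, 2, 4, -3), (1, 0, 2, 1),
   (-1, -1, 0, -1), (-1, 0, 2, -1), (3, -1, 4, -1), (-1, 0, 0, -1), (-3, -1, 4, 1)]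

/-- Twelve representatives with bottom row `≡ (1, 0)` modulo `2`. -/
def LH10 : List (ℤ × ℤ × ℤ × ℤ) :=
  [(-2, -3, 3, 4), (-1, 3, 1, -4), (1, 1, 1, 2), (1, -1, 1, 0), (0, -1, 1, 0), (0, -1, 1, 2), (-1, 1, 1, -2),
   (1, 3, 1, 4), (1, -1, 3, -2), (-1, -1, 1, 0), (-1, -1, 3, 2), (0, -1, 1, -2)]

/-- Twelve representatives with bottom row `≡ (1, 1)` modulo `2`. -/
def LH11 : List (ℤ × ℤ × ℤ × ℤ) :=
  [(0, -1, 1, -3), (1, 0, 1, 1), (-1, 2, 1, -3), (-1, 0, 1, -1), (1, 2, 1, 3), (2, -1, 3, -1), (-2, -1, 3, 1),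
   (0, -1, 1, -1), (-1, 0, 3, -1), (-2, 1, 1, -1), (-1, -2, 1, 1), (0, -1, 1, 1)]

/-- The twelve representatives of `Γ₀(6) \ SL₂(ℤ)`. -/
def LHO : List (ℤ × ℤ × ℤ × ℤ) :=
  [(1, 0, 2, 1), (-1, 0, 2, -1), (-1, -2, 2, 3), (-1, 0, 0, -1), (0, -1, 1, 0), (-2, 1, 3, -2), (0, -1, 1, -2),
   (0, -1, 1, 2), (-1, 0, 1, -1), (-2, -1, 3, 1), (0, -1, 1, 1), (-1, 2, 1, -3)]

/-- The content of E1AH3. -/
def HE1a3 : Prop := ∀ (k : ℕ) (G : ℤ → ℤ → ℂ), 2 ≤ k → BalEH k G →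
  ((fun p : Pt (k - 1) => edgeH 1 1 0 0 1 G p.1 p.2), (fun p : Pt (k - 1) => edgeH 1 1 0 1 1 G p.1 p.2)) ∈
    subEH (k - 1)

/-- E1AH3 (from EDGH3, PLAH3). Even exponent, `m = k - 1`, `μ = 1`, `{u, v} = G(gu) - G(gv)`: `f = {∞, 0}`, `F = {∞, 1}`. (i) `anti3` as in E1AH of TH. (ii) By the rule at the head of this file: `f(ng p) = f(p)`, `f(swH p) = -{0, ∞} = f(p)`. (iii) `F(swH p) = -{0, 1/2}`, so `F + F∘swH - f = {∞,1} + {1/2,0} - {∞,0} = {1/2, 1} =: k`;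
`swH (cBH p) = trp 1 (-4) 1 (-2) 4 p` (matrix `(-4 3; -6 4)` of determinant two, exchanges `1/2` and `1`), so `k(swH (cBH p)) = {1, 1/2} = -k(p)`. (iv) Square `∞, 1, 3/2, 2`: `F(p) = {∞, 1}`, `F(cCH p) = -{3/2, 1}` (`(3 -4; 2 -3)` maps `∞` to `3/2` and fixes `1`), `F(dR 1 p) = {∞, 2}` (`(-1 3; 0 1)`), `F(dR 1 (cCH p)) = -{3/2, 2}`: the sum
`{∞,1} + {1,3/2} + {2,∞} + {3/2,2} = 0`. Model: E1AH of TH, `Pool/Agent/Helper11/TH/M_E1AH.lean`, and `Pool/Agent/Helper69/TH7/M_E1AH7.lean`. -/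
def StHE1a3 : Prop := HEdg3 → HPlA3 → HTyp3 → HE1a3

/-- The content of E1BH3. -/
def HE1b3 : Prop := ∀ (k : ℕ) (G : ℤ → ℤ → ℂ), 2 ≤ k → BalEH k G →
  (∀ x y : ZMod (3 ^ (k - 1)), edgeH 1 1 0 0 1 G x y = 0 ∧ edgeH 1 1 0 1 1 G x y = 0) → EqC G 0

/-- E1BH3 (from EDGH3, PLAH3, FAR). `~` as in E1BH of TH (`Pool/Agent/Helper74/TH/M_E1BH.lean`), invariant under `(a 3b; 3c d)` of type `HTy`, `*`, `b = (0 1; 2 0)`. Given: `∞ ~ 0`, `∞ ~ 1`, with `*` also `∞ ~ -1`. Then (apply the word, then the matrix to a known equivalence): `∞ ~ 1/2` (`0 ~ 1` by `b`); `∞ ~ 2` (`∞ ~ -1` by `(1 3; 0 1)`);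
`-1/2 ~ -3/4` (`-1 ~ 0` by `(-4 -3; 6 4)`); `∞ ~ 2/3` (`0 ~ 3/4` by `b`); `1/2 ~ 1/3` (`1 ~ ∞` by `(-2 3; -6 8)`). With `*`: `∞, 0`, `±1, ±1/2, ±2, ±2/3, ±1/3, ±3/4` are equivalent: both cusps of every matrix in `LH01`, `LH10`, `LH11`. Every matrix of `SL₂(ℤ)` is `g' ρ`, `g' = (a 3b; 6c d)` of determinant one, `ρ` in the list of its
parity (`decide` on `ZMod 3` for each list: `3 ∣ q r1 - p r2`, `3 ∣ r r4 - s r3`). FAR. -/
def StHE1b3 : Prop := HEdg3 → HPlA3 → StFar → HE1b3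

/-- The content of O1H3. -/
def HO13 : Prop := ∀ (k : ℕ) (G : ℤ → ℤ → ℂ), 1 ≤ k → BalOH k G →
  ((fun p : Pt k => edgeH 0 1 0 0 1 G p.1 p.2), (fun p : Pt k => edgeH 0 1 0 1 2 G p.1 p.2)) ∈ subOH k ∧
  ((∀ x y : ZMod (3 ^ k), edgeH 0 1 0 0 1 G x y = 0 ∧ edgeH 0 1 0 1 2 G x y = 0) → EqC G 0)

/-- O1H3 (from EDGH3, PLAH3, TYPH3, FAR). Odd exponent, `m = k`, `μ = 0`, `b = (0 1; 6 0)`: `f = {∞, 0}`, `l = {∞, 1/2}`. `f(ng p) = f(p)`, `f(swH p) = f(p)`; `l(dR 0 p) = l(p)` (`(-1 1; 0 1)` fixes `1/2`), `l(cOH p) = -{1/2, ∞} = l(p)` (`(3 -1; 6 -3)` exchanges `∞` and `1/2`). `h = f - l = {1/2, 0}`; `swH (cOH p) = trp 0 (-2) 1 (-2) 2 p`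
(matrix `(-2 1; -6 2)` of determinant two, exchanges `0` and `1/2`): `h(swH (cOH p)) = -h(p)`. Injectivity (`~` as in E1BH3, for `g = (a b; 3c d)` of type `HTy`; invariant under these, `*`, `b`): given `∞ ~ 0`, `∞ ~ 1/2`; `∞ ~ -1` (`∞ ~ 0` by `(1 -1; 0 1)`); `∞ ~ -2/3` (`0 ~ 1/2` by `b`, then `(1 -1; 0 1)`); with `*`: `∞, 0, ±1, ±1/2, ±2/3`
are equivalent: both cusps of every matrix in `LHO`; every matrix of `SL₂(ℤ)` is `g' ρ` with `g'` in `Γ₀(6)` and `ρ` in `LHO` (bottom rows modulo `6` up to units). FAR. Model: `Pool/Agent/Helper46/TH/M_O1H.lean`. -/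
def StHO13 : Prop := HEdg3 → HPlA3 → HTyp3 → StFar → HO13

/-- The dimension of the new symbols of level `2 * 3^n` (`W = -1`, `* = +1`), `n ≥ 3`. -/
def ddH3 (n : ℕ) : ℕ :=
  if n % 2 = 1 then 9 ^ (n / 2 - 1) + 3 ^ (n / 2 - 1) else 3 * 9 ^ (n / 2 - 2)

/-- UBH3. For `n = 2k ≥ 4` the map to the two functions in `subEH (k-1)`, of dimension `3·9^(k-2) = ddH3 n`; for `n = 2k+1 ≥ 3` the map to the two functions in `subOH k`, of dimension `ddH3 n`. Model: `Pool/Agent/Helper80/TH/M_UBH.lean`. -/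
def StHUB3 : Prop := HBal3 → HE1a3 → HE1b3 → HO13 → HDimE3 → HDimO3 → UBH 3 ddH3

end Pool.Agent.Helper76.TH3
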