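import Pool.Agent.Helper10.W3.M_Trq
import Pool.Agent.Helper38.CV.M_Far
import Pool.Agent.Helper88.TH3.M_PLAH3
import Pool.Agent.Helper85.TH3.M_EDGH3
import Pool.Agent.Helper89.TH3.M_BALH3
import Pool.Agent.Helper27.TH3.M_TYPH3
import Pool.Agent.Helper2.TH3.M_DIMKH3
import Pool.Agent.Helper16.TH3.M_SPLH3
import Pool.Agent.Helper53.TH3.M_DIMEH3
import Pool.Agent.Helper71.TH3.M_DIMOH3
import Pool.Agent.Helper9.TH3.M_E1AH3
import Pool.Agent.Helper44.TH3.M_E1BH3
import Pool.Agent.Helper67.TH3.M_O1H3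
import Pool.Agent.Helper8.TH3.M_UBH3
import Pool.Agent.Helper93.TH3.Edge

/-!
# Project TH: the upper bound for the new symbols of level `2 * 3^n` with `W_2 = +1`, assembled
-/

set_option autoImplicit false

namespace Pool.Agent.Helper76.TH3

open Pool.Agent.Helper93.TLH

/-- Values on translated paths. -/
theorem edgH3 : HEdg3 := Pool.Agent.Helper85.TH3.hEdgH3 Pool.Agent.Helper88.TH3.hPlAH3

/-- The upper bound for the levels `2 * 3^n`. -/
theorem ubh3 : UBH 3 ddH3 := by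
  have pla := Pool.Agent.Helper88.TH3.hPlAH3
  have typ := Pool.Agent.Helper27.TH3.hTypH3
  have dimK := Pool.Agent.Helper2.TH3.hDimKH3 Pool.Agent.Helper10.W3.hTrq
  have split := Pool.Agent.Helper16.TH3.hSplH3
  have far := Pool.Agent.Helper38.CV.hFar
  exact Pool.Agent.Helper8.TH3.hUBH3 Pool.Agent.Helper89.TH3.hBalH3
    (Pool.Agent.Helper9.TH3.hE1AH3 edgH3 pla typ)
    (Pool.Agent.Helper44.TH3.hE1BH3 edgH3 pla far)
    (Pool.Agent.Helper67.TH3.hO1H3 edgH3 pla typ far)
    (Pool.Agent.Helper53.TH3.hDimEH3 typ dimK split)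
    (Pool.Agent.Helper71.TH3.hDimOH3 typ dimK split)

/-- The same with the dimension function of `Pool/Agent/Helper93/TH3/Edge.lean`. -/
theorem ubh3' : UBH 3 Pool.Agent.Helper93.TH3.ddH3 := ubh3

end Pool.Agent.Helper76.TH3
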